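import Mathlib

set_option autoImplicit false

/-!
Squad MZ (MP_d2d93c_nt, Miyazaki's shuffled equation near the two ends of the range of `(f,g)`).
All statements are elementary, over the integers. Notes 2358 (helper40).
-/

namespace Pool.Agent.MZ

open Finset

/-- Coefficient number `j` of the Pade numerator of `z^nu` at `z = 1` of order `N`:
the coefficient of `z^j` in `(1-z)^(2N+1) * sum_k C(N+k,N) C(nu-1-k,N) z^k`. -/
def pc (N nu j : ℕ) : ℤ :=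
  ∑ i ∈ range (j + 1), (-1) ^ i * (Nat.choose (2 * N + 1) i : ℤ) *
    (Nat.choose (N + (j - i)) N : ℤ) * (Nat.choose (nu - 1 - (j - i)) N : ℤ)

/-- Homogeneous numerator. -/
def PP (N nu : ℕ) (a b : ℤ) : ℤ := ∑ j ∈ range (N + 1), pc N nu j * a ^ j * b ^ (N - j)

/-- Homogeneous denominator (the coefficients of `PP` in reversed order). -/
def QQ (N nu : ℕ) (a b : ℤ) : ℤ := ∑ j ∈ range (N + 1), pc N nu (N - j) * a ^ j * b ^ (N - j)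

/-- Homogeneous remainder. -/
def EE (N nu : ℕ) (a b : ℤ) : ℤ :=
  ∑ k ∈ range (nu - N), (Nat.choose (N + k) N : ℤ) * (Nat.choose (nu - 1 - k) N : ℤ) *
    a ^ k * b ^ (nu - N - 1 - k)

/-- PAD. Proof: let `g k = C(N+k,N) C(nu-1-k,N)`, a polynomial of degree `2N` in `k` over `ℚ` which is
`0` at `k = -1, ..., -N` and `k = nu-N, ..., nu-1`. The coefficient of `z^j` in
`(1-z)^(2N+1) * sum_(k < nu-N) g k z^k` is `pc N nu j` for `j <= N`; for `N < j < nu` it is the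
`(2N+1)`-st difference of the polynomial `g`, so `0` (`fwdDiff_iter_eq_zero_of_degree_lt` or the
identity `∑ (-1)^i C(n,i) P(i) = 0` for `natDegree P < n`); for `j >= nu` it is `- pc N nu (nu + N - j)`
by the symmetry `k -> nu-N-1-k` of `g`. Homogenize. -/
def PadStmt : Prop := ∀ (N nu : ℕ), N < nu → ∀ a b : ℤ,
  b ^ nu * PP N nu a b - a ^ nu * QQ N nu a b = (b - a) ^ (2 * N + 1) * EE N nu a b

/-- BND. Proof: triangle inequality, `∑_i C(2N+1,i) <= 2^(2N+1)`, `C(N+k,N) <= C(2N,N) <= 4^N` for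
`k <= N`, `C(nu-1-k,N) <= C(nu-1,N)`. -/
def BndStmt : Prop := ∀ (N nu j : ℕ), j ≤ N →
  |pc N nu j| ≤ 2 ^ (4 * N + 1) * (Nat.choose (nu - 1) N : ℤ)

/-- PZN: the two extreme coefficients. `pc N nu 0 = C(nu-1,N)` is immediate. `pc N nu N`: the
`(2N+1)`-st difference of the polynomial `g` of PAD, evaluated at `N, N-1, ..., -N-1`, is `0`, and
`g(-1) = ... = g(-N) = 0`, `g(-N-1) = (-1)^N C(nu+N,N)`. -/
def PznStmt : Prop := ∀ (N nu : ℕ), N < nu →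
  pc N nu 0 = (Nat.choose (nu - 1) N : ℤ) ∧ pc N nu N = (-1) ^ N * (Nat.choose (nu + N) N : ℤ)

/-- DET. Proof: by PAD the polynomial `D(z) = PP N nu z 1 * QQ (N+1) nu z 1 - PP (N+1) nu z 1 *
QQ N nu z 1` is divisible by `(1-z)^(2N+1)`; its degree is at most `2N+1`, so it is `D(0) (1-z)^(2N+1)`,
and `D(0) = pc N nu 0 * pc (N+1) nu (N+1) - pc (N+1) nu 0 * pc N nu N` is not `0` by PZN. Homogenize. -/
def DetStmt : Prop := ∀ (N nu : ℕ), N + 1 < nu → ∀ a b : ℤ, a ≠ b → b ≠ 0 →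
  PP N nu a b * QQ (N + 1) nu a b - PP (N + 1) nu a b * QQ N nu a b ≠ 0

/-- LP (p-adic lemma). Proof: put `I_i = T * PP i nu a b - W * QQ i nu a b` for `i = N, N+1`. By PAD
`b^nu * I_i = T (b-a)^(2i+1) EE + (T a^nu - W b^nu) QQ`, so `q^(4N+2)` divides `b^nu * I_i`, hence `I_i`.
By DET one of the two is not `0` (`T ≠ 0`). Bound it with BND (`C(nu-1,i) <= 2^(nu-1)`). -/
def LPStmt : Prop := ∀ (q a b T W : ℤ) (N nu : ℕ), N + 1 < nu → IsCoprime q b → q ^ 2 ∣ b - a →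
  a ≠ b → b ≠ 0 → T ≠ 0 → q ^ (4 * N + 2) ∣ T * a ^ nu - W * b ^ nu →
  |q| ^ (4 * N + 2) ≤ (|T| + |W|) * max |a| |b| ^ (N + 1) * ((N + 2) * 2 ^ (4 * N + 5 + nu))

/-- LR (real lemma). Proof: `J = T * PP N nu a b - W * QQ N nu a b` satisfies
`b^nu * J = T (b-a)^(2N+1) EE + QQ (T a^nu - W b^nu)`. Here
`C(nu-1,N) b^(nu-N-1) <= EE <= C(nu+N,2N+1) max(a,b)^(nu-N-1)` (Vandermonde, or any way to get
`∑_k C(N+k,N) C(nu-1-k,N) = C(nu+N,2N+1) <= 2^(nu+N)`), and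
`|QQ| <= (N+1) 2^(4N+1) C(nu-1,N) max(a,b)^N` by BND. So the first term is not `0` and less than
`b^nu / 2` in absolute value, the second one is smaller, hence `0 < |J| < 1`. -/
def LRStmt : Prop := ∀ (a b T W : ℤ) (N nu : ℕ), N < nu → 0 < a → 0 < b → a ≠ b → 0 < T →
  2 * (T * |b - a| ^ (2 * N + 1) * 2 ^ (nu + N) * max a b ^ (nu - N - 1)) < b ^ nu →
  |T * a ^ nu - W * b ^ nu| * ((N + 1) * 2 ^ (4 * N + 1) * max a b ^ N) <
    T * |b - a| ^ (2 * N + 1) * b ^ (nu - N - 1) → False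

/-- ND (near the diagonal). With `M = n+m`, `w = 2M - z`: `w >= 1`, `9 w < M`, `3^(2M-w) <= s^w`.
If `m < 3w` use LP with `q = s`, `b = k`, `a = -l`, `nu = n`, `T = 1`, `W = -(-1)^n k^m`, `N = 4w-1`.
If `m >= 3w` use LR with `b = s^2`, `a = 2k`, `T = s^w`, `W = 2^M d^z`, `nu = M`, `N = w-1`. -/
def NDStmt : Prop := ∀ s d k l n m z : ℕ, 3 ≤ d → (2 * d) ^ 18 ≤ s → Nat.Coprime s k →
  k + l = s ^ 2 → (2 * k = s ^ 2 + d ^ 2 ∨ 2 * k + d ^ 2 = s ^ 2) → 1 ≤ n → 1 ≤ m →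
  k ^ (n + m) + l ^ n = (s * d) ^ z → False

/-- GB (`g` small, `C^x < B^y`). With `n = z - x`, `v = 2z - y`: `n >= 1`, `v >= 1`, `z >= 9v`,
`2^(2z-v) <= f^v`. If `n < 3v` use LP with `q = f`, `b = C`, `a = -A`, `nu = x`, `T = (-1)^x A^n`,
`W = 1`, `N = 4v-1`. If `n >= 3v` use LR with `b = f^2`, `a = f^2-g^2`, `T = f^v`, `W = (2g)^y`,
`nu = z`, `N = v-1` (here `T a^z - W b^z = f^v C^x`). -/
def GBStmt : Prop := ∀ f g x y z : ℕ, 1 ≤ g → (2 * g) ^ 18 ≤ f → Nat.Coprime f g →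
  1 ≤ x → 1 ≤ y → (f ^ 2 + g ^ 2) ^ x + (2 * f * g) ^ y = (f ^ 2 - g ^ 2) ^ z →
  (f ^ 2 + g ^ 2) ^ x < (2 * f * g) ^ y → False

/-- GA (`g` small, `B^y <= C^x`). With `n = z - x >= 1`: `n A < 2 g^2 x` (else
`A^n <= 2 (1 + 2g^2/A)^x <= 2 * 3^n`). Then `2y < x` (else LP with `q = f`, `b = C`, `a = -A`,
`nu = x`, `T = (-1)^x A^n`, `W = 1`, `N = (y-2)/4`), and LR with `b = C`, `a = A`, `T = A^n`, `W = 1`,
`nu = x`, `N = x/8` is a contradiction. -/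
def GAStmt : Prop := ∀ f g x y z : ℕ, 1 ≤ g → (2 * g) ^ 18 ≤ f → Nat.Coprime f g →
  1 ≤ x → 1 ≤ y → (f ^ 2 + g ^ 2) ^ x + (2 * f * g) ^ y = (f ^ 2 - g ^ 2) ^ z →
  (2 * f * g) ^ y ≤ (f ^ 2 + g ^ 2) ^ x → False

/-- FIN: the result. Uses ND (with `s = f+g`, `d = f-g`; `x ≠ y` because `C = B mod d`), GB, GA. -/
def FinStmt : Prop := ∀ f g : ℕ, 1 ≤ g → g < f → Nat.Coprime f g → (f + g) % 2 = 1 → f ≠ g + 1 →
  ((2 * g) ^ 18 ≤ f ∨ (2 * (f - g)) ^ 18 ≤ f) → ∀ x y z : ℕ, 1 ≤ x → 1 ≤ y → 1 ≤ z →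
  (f ^ 2 + g ^ 2) ^ x + (2 * f * g) ^ y ≠ (f ^ 2 - g ^ 2) ^ z

end Pool.Agent.MZ
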